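import Pool.Agent.helper20.SOL.Spec

/-!
# Row sol:VD1: the vertices of `Γ(D_n, k)`
-/

set_option autoImplicit false

namespace Pool.Agent.SOL

open Pool.Agent.helper54.SOG Finset

open scoped BigOperators

variable {n : ℕ}

theorem VD1_single_dot (i z : Fin n) (s t : ℝ) (b : Fin n → ℝ) :
    ∑ j, (Pi.single i s + Pi.single z t : Fin n → ℝ) j * b j = s * b i + t * b z := by
  simp only [Pi.add_apply, add_mul, Finset.sum_add_distrib]
  congr 1
  · rw [Finset.sum_eq_single i]
    · simp
    · intro j _ hj
      simp [Pi.single_apply, hj]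
    · simp
  · rw [Finset.sum_eq_single z]
    · simp
    · intro j _ hj
      simp [Pi.single_apply, hj]
    · simp

theorem VD1_norm {a : Fin n → ℝ} (ha : a ∈ rootsD n) : ∑ i, a i * a i = 2 := by
  obtain ⟨i, j, hij, s, t, hs, ht, rfl⟩ := ha
  rw [VD1_single_dot]
  simp only [Pi.add_apply, Pi.single_apply, hij, hij.symm, if_true, if_false, add_zero, zero_add]
  rcases hs with rfl | rfl <;> rcases ht with rfl | rfl <;> norm_num

theorem VD1_orth {a b : Fin n → ℝ} (ha : a ∈ rootsD n) (hb : b ∈ rootsD n)
    (hab : ∑ i, a i * b i = 0) : a + b ≠ 0 ∧ a + b ∉ rootsD n ∧ a - b ∉ rootsD n := by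
  have h1 : ∑ i, (a + b) i * (a + b) i = 4 := by
    have : ∀ i, (a + b) i * (a + b) i = a i * a i + 2 * (a i * b i) + b i * b i := by
      intro i
      rw [Pi.add_apply]
      ring
    simp only [this, Finset.sum_add_distrib, ← Finset.mul_sum, VD1_norm ha, VD1_norm hb, hab]
    norm_num
  have h2 : ∑ i, (a - b) i * (a - b) i = 4 := by
    have : ∀ i, (a - b) i * (a - b) i = a i * a i - 2 * (a i * b i) + b i * b i := by
      intro i
      rw [Pi.sub_apply]
      ring
    simp only [this, Finset.sum_add_distrib, Finset.sum_sub_distrib, ← Finset.mul_sum,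
      VD1_norm ha, VD1_norm hb, hab]
    norm_num
  refine ⟨?_, ?_, ?_⟩
  · intro h0
    rw [h0] at h1
    simp at h1
  · intro h0
    rw [VD1_norm h0] at h1
    norm_num at h1
  · intro h0
    rw [VD1_norm h0] at h2
    norm_num at h2

theorem VD1_orth' {S : Finset (Fin n → ℝ)} (hS : IsSOS (rootsD n) S) {a b : Fin n → ℝ}
    (ha : a ∈ S) (hb : b ∈ S) (hab : a ≠ b) : ∑ i, a i * b i = 0 := by
  rcases so_of_isSOS hS ha hb with h | h
  · obtain ⟨i, j, hij, hsp, hi, hj, hi', hj'⟩ := so_same (hS.1 a ha) (hS.1 b hb) hab
      (hS.2 a ha b hb hab).1 h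
    have h1 : ∑ x, a x * b x = ∑ x ∈ sp a, a x * b x := by
      symm
      refine Finset.sum_subset (Finset.subset_univ _) fun x _ hx => ?_
      rw [mem_sp, not_not] at hx
      rw [hx, zero_mul]
    have hbj : b j = - a j := by rw [hj, neg_neg]
    rw [h1, hsp, sum_pair hij, ← hi, hbj]
    rcases hi' with h | h <;> rcases hj' with h' | h' <;> rw [h, h'] <;> norm_num
  · refine Finset.sum_eq_zero fun x _ => ?_
    by_cases hx : a x = 0
    · rw [hx, zero_mul]
    · have hb0 : b x = 0 := by
        by_contra h0
        exact Finset.disjoint_left.1 h (mem_sp.2 hx) (mem_sp.2 h0)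
      rw [hb0, mul_zero]

/-! ### From integer vectors to strongly orthogonal sets -/

theorem VD1_upd (g : ℤ → ℤ) (g0 : g 0 = 0) (x : Vec n) (i : Fin n) :
    ∑ j, g (Function.update x i 0 j) = ∑ j, g (x j) - g (x i) := by
  rw [← Finset.add_sum_erase univ _ (Finset.mem_univ i),
    ← Finset.add_sum_erase univ (fun j => g (x j)) (Finset.mem_univ i), Function.update_self, g0,
    zero_add, add_sub_cancel_left]
  refine Finset.sum_congr rfl fun j hj => ?_
  rw [Function.update_of_ne (Finset.ne_of_mem_erase hj)]

theorem VD1_dp_upd (x : Vec n) (i : Fin n) :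
    dp (Function.update x i 0) (Function.update x i 0) = dp x x - x i * x i :=
  VD1_upd (fun z => z * z) (by norm_num) x i

theorem VD1_l1_upd (x : Vec n) (i : Fin n) :
    l1 (Function.update x i 0) = l1 x - |x i| :=
  VD1_upd (fun z => |z|) (by norm_num) x i

theorem VD1_cast_one {z : ℤ} (h : |z| = 1) : ((z : ℤ) : ℝ) = 1 ∨ ((z : ℤ) : ℝ) = -1 := by
  rcases (abs_eq (by norm_num)).1 h with h | h
  · left; rw [h]; norm_num
  · right; rw [h]; norm_num

theorem VD1_cast_two {z : ℤ} (h : |z| = 2) :
    ((z : ℤ) : ℝ) / 2 = 1 ∨ ((z : ℤ) : ℝ) / 2 = -1 := by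
  rcases (abs_eq (by norm_num)).1 h with h | h
  · left; rw [h]; norm_num
  · right; rw [h]; norm_num

theorem VD1_back : ∀ (k : ℕ) (F : Finset (Fin n)) (x : Vec n), (∀ i, i ∉ F → x i = 0) →
    (∀ i, |x i| ≤ 2) → dp x x = 2 * k → l1 x ≤ F.card →
    ∃ S : Finset (Fin n → ℝ), S.card = k ∧ (∀ a ∈ S, a ∈ rootsD n ∧ ∀ i, i ∉ F → a i = 0) ∧
      (∀ a ∈ S, ∀ b ∈ S, a ≠ b → ∑ i, a i * b i = 0) ∧ ∑ a ∈ S, a = cv x := by
  classical
  intro k
  induction k using Nat.strong_induction_on with
  | _ k ih =>
  intro F x hF h2 hdp hl1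
  by_cases hA : ∃ i, |x i| = 2
  · -- an entry `±2`
    obtain ⟨i, hi⟩ := hA
    have hi0 : x i ≠ 0 := by
      intro h0
      rw [h0] at hi
      norm_num at hi
    have hiF : i ∈ F := by
      by_contra h0
      exact hi0 (hF i h0)
    obtain ⟨z, hzF, hz⟩ : ∃ z ∈ F, x z = 0 := by
      by_contra hcon
      push Not at hcon
      have h3 : ∑ z ∈ F, (1 : ℤ) < ∑ z ∈ F, |x z| := by
        refine Finset.sum_lt_sum (fun z hz => ?_) ⟨i, hiF, by rw [hi]; norm_num⟩
        have := abs_pos.2 (hcon z hz)
        omega
      have h4 : ∑ z ∈ F, |x z| ≤ l1 x :=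
        Finset.sum_le_sum_of_subset_of_nonneg (Finset.subset_univ _) fun z _ _ => abs_nonneg _
      rw [Finset.sum_const, nsmul_eq_mul, mul_one] at h3
      omega
    have hzi : z ≠ i := by
      rintro rfl
      exact hi0 hz
    have hxx : x i * x i = 4 := by
      rw [← abs_mul_abs_self, hi]
      norm_num
    have hd' := VD1_dp_upd x i
    have hl' := VD1_l1_upd x i
    rw [hdp, hxx] at hd'
    rw [hi] at hl'
    have hk : 2 ≤ k := by
      have := dp_self_nonneg (Function.update x i 0)
      omega
    obtain ⟨S, hS1, hS2, hS3, hS4⟩ := ih (k - 2) (by omega) ((F.erase i).erase z)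
      (Function.update x i 0) (by
        intro j hj
        by_cases hji : j = i
        · rw [hji, Function.update_self]
        · rw [Function.update_of_ne hji]
          by_cases hjz : j = z
          · rw [hjz, hz]
          · refine hF j fun h0 => hj ?_
            rw [Finset.mem_erase, Finset.mem_erase]
            exact ⟨hjz, hji, h0⟩) (by
        intro j
        by_cases hji : j = i
        · rw [hji, Function.update_self]
          norm_num
        · rw [Function.update_of_ne hji]
          exact h2 j) (by
        rw [hd']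
        omega) (by
        rw [hl', Finset.card_erase_of_mem (Finset.mem_erase.2 ⟨hzi, hzF⟩),
          Finset.card_erase_of_mem hiF]
        omega)
    set p : Fin n → ℝ := Pi.single i ((x i : ℝ) / 2) + Pi.single z 1 with hp
    set m : Fin n → ℝ := Pi.single i ((x i : ℝ) / 2) + Pi.single z (-1) with hm
    have hpi : p i = (x i : ℝ) / 2 := by simp [hp, Pi.single_apply, hzi.symm]
    have hmi : m i = (x i : ℝ) / 2 := by simp [hm, Pi.single_apply, hzi.symm]
    have hpz : p z = 1 := by simp [hp, Pi.single_apply, hzi]
    have hmz : m z = -1 := by simp [hm, Pi.single_apply, hzi]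
    have hx2 := VD1_cast_two hi
    have hne0 : (x i : ℝ) / 2 ≠ 0 := by
      rcases hx2 with h | h <;> rw [h] <;> norm_num
    have hpm : p ≠ m := by
      intro h0
      have := congrFun h0 z
      rw [hpz, hmz] at this
      norm_num at this
    have hSi : ∀ a ∈ S, a i = 0 ∧ a z = 0 := by
      intro a ha
      constructor
      · exact (hS2 a ha).2 i (by simp)
      · exact (hS2 a ha).2 z (by simp)
    have hpS : p ∉ S := fun h0 => hne0 (by rw [← hpi]; exact (hSi p h0).1)
    have hmS : m ∉ S := fun h0 => hne0 (by rw [← hmi]; exact (hSi m h0).1)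
    have hpD : p ∈ rootsD n := ⟨i, z, hzi.symm, _, _, hx2, Or.inl rfl, rfl⟩
    have hmD : m ∈ rootsD n := ⟨i, z, hzi.symm, _, _, hx2, Or.inr rfl, rfl⟩
    have hdpm : ∑ j, p j * m j = 0 := by
      rw [hp, VD1_single_dot, hmi, hmz]
      rcases hx2 with h | h <;> rw [h] <;> norm_num
    have hdp' : ∀ a ∈ S, ∑ j, p j * a j = 0 := by
      intro a ha
      rw [hp, VD1_single_dot, (hSi a ha).1, (hSi a ha).2]
      ring
    have hdm' : ∀ a ∈ S, ∑ j, m j * a j = 0 := by
      intro a ha
      rw [hm, VD1_single_dot, (hSi a ha).1, (hSi a ha).2]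
      ring
    have hcomm : ∀ a b : Fin n → ℝ, ∑ j, a j * b j = ∑ j, b j * a j :=
      fun a b => Finset.sum_congr rfl fun j _ => mul_comm _ _
    have hmem : ∀ a, a ∈ insert p (insert m S) ↔ a = p ∨ a = m ∨ a ∈ S := by
      intro a
      rw [Finset.mem_insert, Finset.mem_insert]
    have hout : ∀ (s t : ℝ) (j : Fin n), j ≠ i → j ≠ z →
        (Pi.single i s + Pi.single z t : Fin n → ℝ) j = 0 := by
      intro s t j h1 h2
      simp [Pi.single_apply, h1, h2]
    have hpmS : p ∉ insert m S := by
      rw [Finset.mem_insert, not_or]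
      exact ⟨hpm, hpS⟩
    refine ⟨insert p (insert m S), ?_, ?_, ?_, ?_⟩
    · rw [Finset.card_insert_of_notMem hpmS, Finset.card_insert_of_notMem hmS, hS1]
      omega
    · intro a ha
      rw [hmem] at ha
      rcases ha with rfl | rfl | ha
      · refine ⟨hpD, fun j hj => hout _ _ j ?_ ?_⟩
        · rintro rfl; exact hj hiF
        · rintro rfl; exact hj hzF
      · refine ⟨hmD, fun j hj => hout _ _ j ?_ ?_⟩
        · rintro rfl; exact hj hiF
        · rintro rfl; exact hj hzF
      · refine ⟨(hS2 a ha).1, fun j hj => (hS2 a ha).2 j ?_⟩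
        intro h0
        exact hj (Finset.mem_of_mem_erase (Finset.mem_of_mem_erase h0))
    · intro a ha b hb hab
      rw [hmem] at ha hb
      rcases ha with rfl | rfl | ha
      · rcases hb with rfl | rfl | hb
        · exact absurd rfl hab
        · exact hdpm
        · exact hdp' b hb
      · rcases hb with rfl | rfl | hb
        · rw [hcomm]; exact hdpm
        · exact absurd rfl hab
        · exact hdm' b hb
      · rcases hb with rfl | rfl | hb
        · rw [hcomm]; exact hdp' a ha
        · rw [hcomm]; exact hdm' a ha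
        · exact hS3 a ha b hb hab
    · rw [Finset.sum_insert hpmS, Finset.sum_insert hmS, hS4]
      funext j
      rw [Pi.add_apply, Pi.add_apply]
      unfold cv
      by_cases hji : j = i
      · rw [hji, hpi, hmi, Function.update_self]
        push_cast
        ring
      · rw [Function.update_of_ne hji]
        by_cases hjz : j = z
        · rw [hjz, hpz, hmz, hz]
          norm_num
        · rw [hp, hm, hout _ _ j hji hjz, hout _ _ j hji hjz]
          ring
  · -- no entry `±2`
    push Not at hA
    have h1 : ∀ i, |x i| ≤ 1 := by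
      intro i
      have := h2 i
      have := hA i
      omega
    by_cases hx0 : x = 0
    · refine ⟨∅, ?_, by simp, by simp, ?_⟩
      · rw [hx0] at hdp
        have : dp (0 : Vec n) 0 = 0 := by simp [dp]
        rw [this] at hdp
        rw [Finset.card_empty]
        omega
      · rw [hx0]
        funext i
        simp [cv]
    · obtain ⟨i, hi0⟩ : ∃ i, x i ≠ 0 := by
        by_contra hcon
        push Not at hcon
        exact hx0 (funext hcon)
      have hi : |x i| = 1 := by
        have := abs_pos.2 hi0
        have := h1 i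
        omega
      have hd1 := VD1_dp_upd x i
      have hl1' := VD1_l1_upd x i
      have hxi : x i * x i = 1 := by
        rw [← abs_mul_abs_self, hi]
        norm_num
      rw [hdp, hxi] at hd1
      rw [hi] at hl1'
      obtain ⟨z, hz0⟩ : ∃ z, Function.update x i 0 z ≠ 0 := by
        by_contra hcon
        push Not at hcon
        have h3 : dp (Function.update x i 0) (Function.update x i 0) = 0 := by
          refine Finset.sum_eq_zero fun j _ => ?_
          rw [hcon j, zero_mul]
        omega
      have hzi : z ≠ i := by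
        rintro rfl
        rw [Function.update_self] at hz0
        exact hz0 rfl
      have hzx : Function.update x i 0 z = x z := Function.update_of_ne hzi _ _
      rw [hzx] at hz0
      have hz : |x z| = 1 := by
        have := abs_pos.2 hz0
        have := h1 z
        omega
      have hiF : i ∈ F := by
        by_contra h0
        exact hi0 (hF i h0)
      have hzF : z ∈ F := by
        by_contra h0
        exact hz0 (hF z h0)
      have hd2 := VD1_dp_upd (Function.update x i 0) z
      have hl2' := VD1_l1_upd (Function.update x i 0) z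
      have hxz : x z * x z = 1 := by
        rw [← abs_mul_abs_self, hz]
        norm_num
      rw [hd1, hzx, hxz] at hd2
      rw [hl1', hzx, hz] at hl2'
      have hk : 1 ≤ k := by
        have := dp_self_nonneg (Function.update (Function.update x i 0) z 0)
        omega
      obtain ⟨S, hS1, hS2, hS3, hS4⟩ := ih (k - 1) (by omega) ((F.erase i).erase z)
        (Function.update (Function.update x i 0) z 0) (by
          intro j hj
          by_cases hjz : j = z
          · rw [hjz, Function.update_self]
          · rw [Function.update_of_ne hjz]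
            by_cases hji : j = i
            · rw [hji, Function.update_self]
            · rw [Function.update_of_ne hji]
              refine hF j fun h0 => hj ?_
              rw [Finset.mem_erase, Finset.mem_erase]
              exact ⟨hjz, hji, h0⟩) (by
          intro j
          by_cases hjz : j = z
          · rw [hjz, Function.update_self]
            norm_num
          · rw [Function.update_of_ne hjz]
            by_cases hji : j = i
            · rw [hji, Function.update_self]
              norm_num
            · rw [Function.update_of_ne hji]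
              exact h2 j) (by
          rw [hd2]
          omega) (by
          rw [hl2', Finset.card_erase_of_mem (Finset.mem_erase.2 ⟨hzi, hzF⟩),
            Finset.card_erase_of_mem hiF]
          omega)
      set p : Fin n → ℝ := Pi.single i (x i : ℝ) + Pi.single z (x z : ℝ) with hp
      have hpi : p i = (x i : ℝ) := by simp [hp, Pi.single_apply, hzi.symm]
      have hpz : p z = (x z : ℝ) := by simp [hp, Pi.single_apply, hzi]
      have hSi : ∀ a ∈ S, a i = 0 ∧ a z = 0 := by
        intro a ha
        constructor
        · exact (hS2 a ha).2 i (by simp)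
        · exact (hS2 a ha).2 z (by simp)
      have hpS : p ∉ S := by
        intro h0
        have := (hSi p h0).1
        rw [hpi] at this
        exact hi0 (by exact_mod_cast this)
      have hpD : p ∈ rootsD n :=
        ⟨i, z, hzi.symm, _, _, VD1_cast_one hi, VD1_cast_one hz, rfl⟩
      have hdp' : ∀ a ∈ S, ∑ j, p j * a j = 0 := by
        intro a ha
        rw [hp, VD1_single_dot, (hSi a ha).1, (hSi a ha).2]
        ring
      have hcomm : ∀ a b : Fin n → ℝ, ∑ j, a j * b j = ∑ j, b j * a j :=
        fun a b => Finset.sum_congr rfl fun j _ => mul_comm _ _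
      have hout : ∀ j : Fin n, j ≠ i → j ≠ z → p j = 0 := by
        intro j h1 h2
        simp [hp, Pi.single_apply, h1, h2]
      refine ⟨insert p S, ?_, ?_, ?_, ?_⟩
      · rw [Finset.card_insert_of_notMem hpS, hS1]
        omega
      · intro a ha
        rw [Finset.mem_insert] at ha
        rcases ha with rfl | ha
        · refine ⟨hpD, fun j hj => hout j ?_ ?_⟩
          · rintro rfl; exact hj hiF
          · rintro rfl; exact hj hzF
        · refine ⟨(hS2 a ha).1, fun j hj => (hS2 a ha).2 j ?_⟩
          intro h0
          exact hj (Finset.mem_of_mem_erase (Finset.mem_of_mem_erase h0))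
      · intro a ha b hb hab
        rw [Finset.mem_insert] at ha hb
        rcases ha with rfl | ha
        · rcases hb with rfl | hb
          · exact absurd rfl hab
          · exact hdp' b hb
        · rcases hb with rfl | hb
          · rw [hcomm]; exact hdp' a ha
          · exact hS3 a ha b hb hab
      · rw [Finset.sum_insert hpS, hS4]
        funext j
        rw [Pi.add_apply]
        unfold cv
        by_cases hjz : j = z
        · rw [hjz, hpz, Function.update_self]
          push_cast
          ring
        · rw [Function.update_of_ne hjz]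
          by_cases hji : j = i
          · rw [hji, hpi, Function.update_self]
            push_cast
            ring
          · rw [Function.update_of_ne hji, hout j hji hjz]
            ring

/-! ### From strongly orthogonal sets to integer vectors -/

theorem VD1_entry {a : Fin n → ℝ} (ha : a ∈ rootsD n) (i : Fin n) :
    a i = 0 ∨ a i = 1 ∨ a i = -1 := ((mem_rootsD_iff a).1 ha).1 i

theorem VD1_abs {a : Fin n → ℝ} (ha : a ∈ rootsD n) (i : Fin n) : |a i| ≤ 1 := by
  rcases VD1_entry ha i with h | h | h <;> rw [h] <;> norm_num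

theorem VD1_floor {a : Fin n → ℝ} (ha : a ∈ rootsD n) (i : Fin n) : ((⌊a i⌋ : ℤ) : ℝ) = a i := by
  rcases VD1_entry ha i with h | h | h <;> rw [h]
  · simp
  · simp
  · have : (⌊(-1 : ℝ)⌋ : ℤ) = -1 := by
      have := Int.floor_intCast (R := ℝ) (-1)
      push_cast at this
      exact this
    rw [this]
    norm_num

theorem VD1_sum_fiber {S : Finset (Fin n → ℝ)} (hS : IsSOS (rootsD n) S) {a₀ : Fin n → ℝ}
    (ha₀ : a₀ ∈ S) {i : Fin n} (hi : i ∈ sp a₀) [DecidablePred fun a => sp a = sp a₀] :
    ∑ a ∈ S, a i = ∑ a ∈ S.filter (fun a => sp a = sp a₀), a i := by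
  symm
  refine Finset.sum_subset (Finset.filter_subset _ _) fun c hcS hcP => ?_
  by_contra hcx
  have hxc : i ∈ sp c := mem_sp.2 hcx
  apply hcP
  rw [Finset.mem_filter]
  refine ⟨hcS, ?_⟩
  rcases so_of_isSOS hS hcS ha₀ with h3 | h3
  · exact h3
  · exfalso
    rw [Finset.disjoint_left] at h3
    exact h3 hxc hi

theorem VD1_fwd {S : Finset (Fin n → ℝ)} (hS : IsSOS (rootsD n) S) :
    ∃ x ∈ VD n S.card, cv x = ∑ a ∈ S, a := by
  classical
  set v : Fin n → ℝ := ∑ a ∈ S, a with hv
  have hvi : ∀ i, v i = ∑ a ∈ S, a i := fun i => by rw [hv, Finset.sum_apply]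
  let x : Vec n := fun i => ∑ a ∈ S, ⌊a i⌋
  have hx : cv x = v := by
    funext i
    rw [hvi]
    show ((∑ a ∈ S, ⌊a i⌋ : ℤ) : ℝ) = _
    push_cast
    exact Finset.sum_congr rfl fun a ha => VD1_floor (hS.1 a ha) i
  have hxi : ∀ i, ((x i : ℤ) : ℝ) = v i := fun i => congrFun hx i
  refine ⟨x, ⟨?_, ?_, ?_⟩, hx⟩
  · intro i
    have h1 : |v i| ≤ 2 := by
      by_cases h0 : ∃ a₀ ∈ S, i ∈ sp a₀
      · obtain ⟨a₀, ha₀, hi⟩ := h0
        rw [hvi, VD1_sum_fiber hS ha₀ hi]
        calc |∑ a ∈ S.filter (fun a => sp a = sp a₀), a i|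
            ≤ ∑ a ∈ S.filter (fun a => sp a = sp a₀), |a i| := Finset.abs_sum_le_sum_abs _ _
          _ ≤ ∑ a ∈ S.filter (fun a => sp a = sp a₀), (1 : ℝ) :=
              Finset.sum_le_sum fun a ha => VD1_abs (hS.1 a (Finset.mem_filter.1 ha).1) i
          _ = ((S.filter (fun a => sp a = sp a₀)).card : ℝ) := by simp
          _ ≤ 2 := by exact_mod_cast fiber_le hS (sp a₀)
      · push Not at h0
        rw [hvi, Finset.sum_eq_zero]
        · norm_num
        · intro a ha
          have := h0 a ha
          rwa [mem_sp, not_not] at this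
    rw [← hxi] at h1
    exact_mod_cast h1
  · have h1 : ((dp x x : ℤ) : ℝ) = 2 * (S.card : ℝ) := by
      unfold dp
      push_cast
      calc ∑ i, ((x i : ℤ) : ℝ) * ((x i : ℤ) : ℝ)
          = ∑ i, (∑ a ∈ S, a i) * (∑ b ∈ S, b i) :=
            Finset.sum_congr rfl fun i _ => by rw [hxi, hvi]
        _ = ∑ i, ∑ a ∈ S, ∑ b ∈ S, a i * b i :=
            Finset.sum_congr rfl fun i _ => Finset.sum_mul_sum _ _ _ _
        _ = ∑ a ∈ S, ∑ b ∈ S, ∑ i, a i * b i := by
            rw [Finset.sum_comm]
            refine Finset.sum_congr rfl fun a _ => ?_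
            rw [Finset.sum_comm]
        _ = ∑ a ∈ S, (2 : ℝ) := by
            refine Finset.sum_congr rfl fun a ha => ?_
            rw [Finset.sum_eq_single a]
            · exact VD1_norm (hS.1 a ha)
            · intro b hb hba
              exact VD1_orth' hS ha hb (Ne.symm hba)
            · intro h0
              exact absurd ha h0
        _ = 2 * (S.card : ℝ) := by
            rw [Finset.sum_const, nsmul_eq_mul, mul_comm]
    exact_mod_cast h1
  · have h1 : ∑ i, |v i| ≤ (n : ℝ) := by
      have hdisj : ∀ P ∈ S.image sp, ∀ Q ∈ S.image sp, P ≠ Q → Disjoint P Q := by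
        intro P hP Q hQ hPQ
        obtain ⟨a, ha, rfl⟩ := mem_image.1 hP
        obtain ⟨b, hb, rfl⟩ := mem_image.1 hQ
        exact (so_of_isSOS hS ha hb).resolve_left hPQ
      have h2 : ∑ i, |v i| = ∑ i ∈ (S.image sp).biUnion id, |v i| := by
        symm
        refine Finset.sum_subset (Finset.subset_univ _) fun i _ hi => ?_
        rw [hvi, Finset.sum_eq_zero, abs_zero]
        intro a ha
        by_contra h0
        exact hi (Finset.mem_biUnion.2 ⟨sp a, Finset.mem_image_of_mem _ ha, mem_sp.2 h0⟩)
      have h3 : ∀ P ∈ S.image sp, ∑ i ∈ P, |v i| ≤ 2 := by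
        intro P hP
        obtain ⟨a, ha, rfl⟩ := mem_image.1 hP
        have haF : a ∈ S.filter (fun b => sp b = sp a) := Finset.mem_filter.2 ⟨ha, rfl⟩
        have hle := fiber_le hS (sp a)
        by_cases hone : ∃ b ∈ S.filter (fun b => sp b = sp a), b ≠ a
        · obtain ⟨b, hb, hba⟩ := hone
          have hF : S.filter (fun b => sp b = sp a) = {a, b} := by
            symm
            refine Finset.eq_of_subset_of_card_le ?_ ?_
            · intro c hc
              rw [Finset.mem_insert, Finset.mem_singleton] at hc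
              rcases hc with rfl | rfl
              · exact haF
              · exact hb
            · rw [Finset.card_pair (Ne.symm hba)]
              exact hle
          have hbS := Finset.mem_filter.1 hb
          obtain ⟨i, j, hij, hsp, hi, hj, hi', hj'⟩ := so_same (hS.1 a ha) (hS.1 b hbS.1)
            (Ne.symm hba) (hS.2 a ha b hbS.1 (Ne.symm hba)).1 hbS.2.symm
          have hval : ∀ y ∈ sp a, v y = a y + b y := by
            intro y hy
            rw [hvi, VD1_sum_fiber hS ha hy, hF, Finset.sum_pair (Ne.symm hba)]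
          rw [hsp] at hval ⊢
          rw [Finset.sum_pair hij, hval i (by simp), hval j (by simp), ← hi, hj, neg_add_cancel,
            abs_zero, add_zero]
          rcases hi' with h | h <;> rw [h] <;> norm_num
        · push Not at hone
          have hF : S.filter (fun b => sp b = sp a) = {a} :=
            Finset.eq_singleton_iff_unique_mem.2 ⟨haF, hone⟩
          have hval : ∀ y ∈ sp a, |v y| ≤ 1 := by
            intro y hy
            rw [hvi, VD1_sum_fiber hS ha hy, hF, Finset.sum_singleton]
            exact VD1_abs (hS.1 a ha) y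
          calc ∑ i ∈ sp a, |v i| ≤ ∑ i ∈ sp a, (1 : ℝ) := Finset.sum_le_sum hval
            _ = ((sp a).card : ℝ) := by simp
            _ ≤ 2 := by exact_mod_cast ((mem_rootsD_iff a).1 (hS.1 a ha)).2.le
      have h4 := two_mul_le hS univ (fun a _ => subset_univ _)
      rw [Finset.card_univ, Fintype.card_fin] at h4
      have h6 : ∑ i ∈ (S.image sp).biUnion id, |v i| = ∑ P ∈ S.image sp, ∑ i ∈ P, |v i| :=
        Finset.sum_biUnion (t := id) (fun P hP Q hQ hPQ => hdisj P hP Q hQ hPQ)
      rw [h2, h6]
      calc ∑ P ∈ S.image sp, ∑ i ∈ P, |v i| ≤ ∑ P ∈ S.image sp, (2 : ℝ) :=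
            Finset.sum_le_sum h3
        _ = ((2 * (S.image sp).card : ℕ) : ℝ) := by
            rw [Finset.sum_const, nsmul_eq_mul]
            push_cast
            ring
        _ ≤ n := by exact_mod_cast h4
    have h5 : ((l1 x : ℤ) : ℝ) = ∑ i, |v i| := by
      unfold l1
      push_cast
      exact Finset.sum_congr rfl fun i _ => by rw [hxi]
    rw [← h5] at h1
    exact_mod_cast h1

theorem VD1 : VD1_stmt := by
  intro n k
  ext v
  constructor
  · rintro ⟨S, hc, hS, rfl⟩
    obtain ⟨x, hx, hx'⟩ := VD1_fwd hS
    rw [hc] at hx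
    exact ⟨x, hx, hx'⟩
  · rintro ⟨x, hx, rfl⟩
    obtain ⟨S, h1, h2, h3, h4⟩ := VD1_back k Finset.univ x
      (fun i hi => absurd (Finset.mem_univ i) hi) hx.1 hx.2.1
      (by rw [Finset.card_univ, Fintype.card_fin]; exact hx.2.2)
    refine ⟨S, h1, ⟨fun a ha => (h2 a ha).1, fun a ha b hb hab => ?_⟩, h4⟩
    exact VD1_orth (h2 a ha).1 (h2 b hb).1 (h3 a ha b hb hab)

end Pool.Agent.SOL
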