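import Pool.Agent.helper20.SOL.SpecE

/-!
# Row sol:ME6b: the vertices of `Γ(E_6, 4)` and the emptiness for `k ≥ 5`
-/

set_option autoImplicit false
set_option linter.unusedVariables false

namespace Pool.Agent.SOL

open Pool.Agent.helper54.SOG Finset

open scoped BigOperators

/-- six coordinates -/
structure ME6b_V where
  a : ℤ
  b : ℤ
  c : ℤ
  d : ℤ
  e : ℤ
  f : ℤ

def ME6b_dp (x y : ME6b_V) : ℤ :=
  x.a * y.a + (x.b * y.b + (x.c * y.c + (x.d * y.d + (x.e * y.e + 3 * (x.f * y.f)))))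

def ME6b_add (x y : ME6b_V) : ME6b_V :=
  ⟨x.a + y.a, x.b + y.b, x.c + y.c, x.d + y.d, x.e + y.e, x.f + y.f⟩

def ME6b_isR (x : ME6b_V) : Bool :=
  x.a % 2 == x.f % 2 && (x.b % 2 == x.f % 2 && (x.c % 2 == x.f % 2 && (x.d % 2 == x.f % 2 &&
    (x.e % 2 == x.f % 2 && ((x.a + x.b + x.c + x.d + x.e + x.f) % 4 == 0 &&
      ME6b_dp x x == 8)))))

def ME6b_cands : List ME6b_V :=
  [(-2 : ℤ), -1, 0, 1, 2].flatMap fun a => [(-2 : ℤ), -1, 0, 1, 2].flatMap fun b =>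
    [(-2 : ℤ), -1, 0, 1, 2].flatMap fun c => [(-2 : ℤ), -1, 0, 1, 2].flatMap fun d =>
      [(-2 : ℤ), -1, 0, 1, 2].flatMap fun e => [(-1 : ℤ), 0, 1].map fun f => ⟨a, b, c, d, e, f⟩

def ME6b_L : List ME6b_V := ME6b_cands.filter ME6b_isR

def ME6b_go (F : List ME6b_V → ME6b_V → Bool) : List ME6b_V → ME6b_V → Bool
  | [], _ => true
  | v :: r, s => F (r.filter fun w => ME6b_dp v w == 0) (ME6b_add s v) && ME6b_go F r s

def ME6b_chk (good : ME6b_V → Bool) : ℕ → List ME6b_V → ME6b_V → Bool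
  | 0 => fun _ s => good s
  | n + 1 => ME6b_go (ME6b_chk good n)

def ME6b_good (s : ME6b_V) : Bool :=
  s.a % 2 == 0 && (s.b % 2 == 0 && (s.c % 2 == 0 && (s.d % 2 == 0 && (s.e % 2 == 0 &&
    (s.f % 2 == 0 && ME6b_isR ⟨s.a / 2, s.b / 2, s.c / 2, s.d / 2, s.e / 2, s.f / 2⟩)))))

def ME6b_sub (x y : ME6b_V) : ME6b_V :=
  ⟨x.a - y.a, x.b - y.b, x.c - y.c, x.d - y.d, x.e - y.e, x.f - y.f⟩

/-- search for a decomposition of `2 v` -/
def ME6b_fnd (L : List ME6b_V) (v : ME6b_V) : Bool :=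
  (L.filter fun w => ME6b_dp v w == 4).any fun a =>
    ((L.filter fun w => ME6b_dp v w == 4).filter fun w => ME6b_dp a w == 0).any fun b =>
      (((L.filter fun w => ME6b_dp v w == 4).filter fun w => ME6b_dp a w == 0).filter
        fun w => ME6b_dp b w == 0).any fun c =>
        ME6b_isR (ME6b_sub (ME6b_sub (ME6b_sub (ME6b_add v v) a) b) c) &&
          (ME6b_dp a (ME6b_sub (ME6b_sub (ME6b_sub (ME6b_add v v) a) b) c) == 0 &&
          (ME6b_dp b (ME6b_sub (ME6b_sub (ME6b_sub (ME6b_add v v) a) b) c) == 0 &&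
          ME6b_dp c (ME6b_sub (ME6b_sub (ME6b_sub (ME6b_add v v) a) b) c) == 0))

theorem ME6b_len : ME6b_L.length = 72 := by
  decide +kernel

theorem ME6b_c4 : ME6b_chk ME6b_good 4 ME6b_L ⟨0, 0, 0, 0, 0, 0⟩ = true := by
  decide +kernel

theorem ME6b_c5 : ME6b_chk (fun _ => false) 5 ME6b_L ⟨0, 0, 0, 0, 0, 0⟩ = true := by
  decide +kernel

theorem ME6b_f : ME6b_L.all (ME6b_fnd ME6b_L) = true := by
  decide +kernel

/-- the coordinates of a vector -/
def ME6b_toV (x : Vec 8) : ME6b_V := ⟨x 0, x 1, x 2, x 3, x 4, x 5⟩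

def ME6b_ofV (v : ME6b_V) : Vec 8 := ![v.a, v.b, v.c, v.d, v.e, v.f, v.f, -v.f]

theorem ME6b_dp8 (x y : Vec 8) : dp x y = x 0 * y 0 + x 1 * y 1 + x 2 * y 2 + x 3 * y 3 + x 4 * y 4 +
    x 5 * y 5 + x 6 * y 6 + x 7 * y 7 := by
  unfold dp
  rw [Fin.sum_univ_eight]

/-- the linear conditions -/
def ME6b_lin (x : Vec 8) : Prop := x 6 + x 7 = 0 ∧ x 5 = x 6

theorem ME6b_dp_eq {x y : Vec 8} (hx : ME6b_lin x) (hy : ME6b_lin y) :
    dp x y = ME6b_dp (ME6b_toV x) (ME6b_toV y) := by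
  rw [ME6b_dp8]
  have h1 : x 6 = x 5 := hx.2.symm
  have h2 : y 6 = y 5 := hy.2.symm
  have h3 : x 7 = - x 5 := by have := hx.1; omega
  have h4 : y 7 = - y 5 := by have := hy.1; omega
  rw [h1, h2, h3, h4]
  simp only [ME6b_dp, ME6b_toV]
  ring

theorem ME6b_lin_R6 {x : Vec 8} (hx : x ∈ R6) : ME6b_lin x := ⟨hx.2.1, hx.2.2.1⟩

theorem ME6b_isR_iff {v : ME6b_V} : ME6b_isR v = true ↔
    (v.a % 2 = v.f % 2 ∧ v.b % 2 = v.f % 2 ∧ v.c % 2 = v.f % 2 ∧ v.d % 2 = v.f % 2 ∧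
      v.e % 2 = v.f % 2 ∧ (v.a + v.b + v.c + v.d + v.e + v.f) % 4 = 0 ∧ ME6b_dp v v = 8) := by
  simp [ME6b_isR]

theorem ME6b_toV_isR {x : Vec 8} (hx : x ∈ R6) : ME6b_isR (ME6b_toV x) = true := by
  have hl := ME6b_lin_R6 hx
  obtain ⟨⟨hp, hs⟩, h67, h56, hn⟩ := hx
  rw [ME6b_isR_iff]
  rw [Fin.sum_univ_eight] at hs
  refine ⟨hp 0 5, hp 1 5, hp 2 5, hp 3 5, hp 4 5, ?_, ?_⟩
  · simp only [ME6b_toV]
    omega
  · rw [← ME6b_dp_eq hl hl, hn]
    norm_num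

theorem ME6b_ofV_R6 {v : ME6b_V} (hv : ME6b_isR v = true) : ME6b_ofV v ∈ R6 := by
  rw [ME6b_isR_iff] at hv
  obtain ⟨h1, h2, h3, h4, h5, h6, h7⟩ := hv
  have hl : ME6b_lin (ME6b_ofV v) := by
    simp [ME6b_lin, ME6b_ofV]
  refine ⟨⟨?_, ?_⟩, hl.1, hl.2, ?_⟩
  · have key : ∀ i : Fin 8, ME6b_ofV v i % 2 = v.f % 2 := by
      intro i
      fin_cases i
      · exact h1
      · exact h2
      · exact h3
      · exact h4
      · exact h5
      · rfl
      · rfl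
      · show (-v.f) % 2 = v.f % 2
        omega
    intro i j
    rw [key, key]
  · rw [Fin.sum_univ_eight]
    show (v.a + v.b + v.c + v.d + v.e + v.f + v.f + -v.f) % 4 = 0
    omega
  · rw [ME6b_dp_eq hl hl]
    have : ME6b_toV (ME6b_ofV v) = v := rfl
    rw [this, h7]
    norm_num

theorem ME6b_toV_ofV (v : ME6b_V) : ME6b_toV (ME6b_ofV v) = v := rfl

theorem ME6b_ofV_toV {x : Vec 8} (hx : ME6b_lin x) : ME6b_ofV (ME6b_toV x) = x := by
  funext i
  have h1 := hx.1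
  have h2 := hx.2
  fin_cases i
  · rfl
  · rfl
  · rfl
  · rfl
  · rfl
  · rfl
  · exact h2
  · show -(x 5) = x 7
    omega

theorem ME6b_inj {x y : Vec 8} (hx : ME6b_lin x) (hy : ME6b_lin y) (h : ME6b_toV x = ME6b_toV y) :
    x = y := by
  rw [← ME6b_ofV_toV hx, ← ME6b_ofV_toV hy, h]

theorem ME6b_bd {a r : ℤ} (h : a * a + r = 8) (hr : 0 ≤ r) : a ∈ [(-2 : ℤ), -1, 0, 1, 2] := by
  have h1 : a ≤ 2 := by nlinarith
  have h2 : -2 ≤ a := by nlinarith
  simp only [List.mem_cons, List.not_mem_nil, or_false]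
  omega

theorem ME6b_bd3 {a r : ℤ} (h : 3 * (a * a) + r = 8) (hr : 0 ≤ r) : a ∈ [(-1 : ℤ), 0, 1] := by
  have h1 : a ≤ 1 := by nlinarith
  have h2 : -1 ≤ a := by nlinarith
  simp only [List.mem_cons, List.not_mem_nil, or_false]
  omega

theorem ME6b_memL {v : ME6b_V} (hv : ME6b_isR v = true) : v ∈ ME6b_L := by
  have h8 := (ME6b_isR_iff.1 hv).2.2.2.2.2.2
  have ha := mul_self_nonneg v.a
  have hb := mul_self_nonneg v.b
  have hc := mul_self_nonneg v.c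
  have hd := mul_self_nonneg v.d
  have he := mul_self_nonneg v.e
  have hf := mul_self_nonneg v.f
  unfold ME6b_dp at h8
  unfold ME6b_L
  rw [List.mem_filter]
  refine ⟨?_, hv⟩
  unfold ME6b_cands
  refine List.mem_flatMap.2 ⟨v.a, ME6b_bd (r := 8 - v.a * v.a) (by ring) (by linarith), ?_⟩
  refine List.mem_flatMap.2 ⟨v.b, ME6b_bd (r := 8 - v.b * v.b) (by ring) (by linarith), ?_⟩
  refine List.mem_flatMap.2 ⟨v.c, ME6b_bd (r := 8 - v.c * v.c) (by ring) (by linarith), ?_⟩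
  refine List.mem_flatMap.2 ⟨v.d, ME6b_bd (r := 8 - v.d * v.d) (by ring) (by linarith), ?_⟩
  refine List.mem_flatMap.2 ⟨v.e, ME6b_bd (r := 8 - v.e * v.e) (by ring) (by linarith), ?_⟩
  refine List.mem_map.2 ⟨v.f, ME6b_bd3 (r := 8 - 3 * (v.f * v.f)) (by ring) (by linarith), ?_⟩
  rfl

theorem ME6b_isR_of_mem {v : ME6b_V} (hv : v ∈ ME6b_L) : ME6b_isR v = true :=
  (List.mem_filter.1 hv).2

theorem ME6b_toV_add (x y : Vec 8) : ME6b_toV (x + y) = ME6b_add (ME6b_toV x) (ME6b_toV y) := rfl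

theorem ME6b_add_assoc (x y z : ME6b_V) : ME6b_add (ME6b_add x y) z = ME6b_add x (ME6b_add y z) := by
  simp only [ME6b_add, add_assoc]

theorem ME6b_zero_add (x : ME6b_V) : ME6b_add ⟨0, 0, 0, 0, 0, 0⟩ x = x := by
  simp only [ME6b_add, zero_add]

theorem ME6b_add_zero (x : ME6b_V) : ME6b_add x (ME6b_toV 0) = x := by
  simp [ME6b_add, ME6b_toV]

theorem ME6b_sound (good : ME6b_V → Bool) : ∀ (n : ℕ) (l : List ME6b_V) (s : ME6b_V),
    ME6b_chk good n l s = true → ∀ S : Finset (Vec 8), S.card = n → (∀ x ∈ S, x ∈ R6) →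
      (∀ x ∈ S, ∀ y ∈ S, x ≠ y → dp x y = 0) → (∀ x ∈ S, ME6b_toV x ∈ l) →
        good (ME6b_add s (ME6b_toV (∑ x ∈ S, x))) = true := by
  intro n
  induction n with
  | zero =>
    intro l s h S hS _ _ _
    rw [card_eq_zero] at hS
    subst hS
    rw [sum_empty, ME6b_add_zero]
    exact h
  | succ n ih =>
    intro l
    induction l with
    | nil =>
      intro s _ S hS _ _ hl
      exfalso
      have hne : S.Nonempty := by
        rw [← card_pos, hS]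
        exact Nat.succ_pos n
      obtain ⟨x, hx⟩ := hne
      exact (List.not_mem_nil (hl x hx))
    | cons v r ihr =>
      intro s h S hS hR hO hl
      have h' : (ME6b_chk good n (r.filter fun w => ME6b_dp v w == 0) (ME6b_add s v) &&
        ME6b_chk good (n + 1) r s) = true := h
      rw [Bool.and_eq_true] at h'
      by_cases hv : ∃ x ∈ S, ME6b_toV x = v
      · obtain ⟨x, hx, hxv⟩ := hv
        have h1 := ih (r.filter fun w => ME6b_dp v w == 0) (ME6b_add s v) h'.1 (S.erase x)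
          (by rw [card_erase_of_mem hx, hS]; rfl)
          (fun y hy => hR y (mem_of_mem_erase hy))
          (fun y hy z hz => hO y (mem_of_mem_erase hy) z (mem_of_mem_erase hz))
          (by
            intro y hy
            have hyS := mem_of_mem_erase hy
            have hyx : y ≠ x := ne_of_mem_erase hy
            rw [List.mem_filter]
            constructor
            · rcases List.mem_cons.1 (hl y hyS) with h2 | h2
              · exfalso
                exact hyx (ME6b_inj (ME6b_lin_R6 (hR y hyS)) (ME6b_lin_R6 (hR x hx)) (h2.trans hxv.symm))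
              · exact h2
            · have h3 := hO x hx y hyS hyx.symm
              rw [ME6b_dp_eq (ME6b_lin_R6 (hR x hx)) (ME6b_lin_R6 (hR y hyS)), hxv] at h3
              simp [h3])
        rw [ME6b_add_assoc, ← hxv, ← ME6b_toV_add, add_sum_erase S (fun y => y) hx] at h1
        exact h1
      · refine ihr s h'.2 S hS hR hO ?_
        intro x hx
        rcases List.mem_cons.1 (hl x hx) with h2 | h2
        · exact absurd ⟨x, hx, h2⟩ hv
        · exact h2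

theorem ME6b_lin_sum (S : Finset (Vec 8)) (h : ∀ x ∈ S, ME6b_lin x) : ME6b_lin (∑ x ∈ S, x) := by
  constructor
  · rw [Finset.sum_apply, Finset.sum_apply, ← sum_add_distrib]
    exact sum_eq_zero fun x hx => (h x hx).1
  · rw [Finset.sum_apply, Finset.sum_apply]
    exact sum_congr rfl fun x hx => (h x hx).2

theorem ME6b_add_sub (x y z w : ME6b_V) :
    ME6b_add (ME6b_add (ME6b_add x y) z) (ME6b_sub (ME6b_sub (ME6b_sub w x) y) z) = w := by
  cases w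
  simp only [ME6b_add, ME6b_sub, ME6b_V.mk.injEq]
  refine ⟨?_, ?_, ?_, ?_, ?_, ?_⟩ <;> ring

theorem ME6b_ofV_dp (v w : ME6b_V) : dp (ME6b_ofV v) (ME6b_ofV w) = ME6b_dp v w := by
  have h1 : ∀ v, ME6b_lin (ME6b_ofV v) := by
    intro v
    simp [ME6b_lin, ME6b_ofV]
  rw [ME6b_dp_eq (h1 v) (h1 w)]
  rfl

theorem ME6b_ofV_add (v w : ME6b_V) : ME6b_ofV (ME6b_add v w) = ME6b_ofV v + ME6b_ofV w := by
  funext i
  fin_cases i
  · rfl
  · rfl
  · rfl
  · rfl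
  · rfl
  · rfl
  · rfl
  · show -(v.f + w.f) = -v.f + -w.f
    ring

theorem ME6b_back (hCLQ : CLQ_stmt) {y : Vec 8} (hy : y ∈ R6) : y + y ∈ VE R6 4 := by
  have hyL := ME6b_memL (ME6b_toV_isR hy)
  have h1 := List.all_eq_true.1 ME6b_f _ hyL
  unfold ME6b_fnd at h1
  obtain ⟨a, ha, h2⟩ := List.any_eq_true.1 h1
  obtain ⟨b, hb, h3⟩ := List.any_eq_true.1 h2
  obtain ⟨c, hc, h4⟩ := List.any_eq_true.1 h3
  rw [List.mem_filter] at hc
  rw [List.mem_filter] at hb ha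
  obtain ⟨hc1, hbc⟩ := hc
  rw [List.mem_filter, List.mem_filter] at hc1
  obtain ⟨⟨hcL, _⟩, hac⟩ := hc1
  obtain ⟨hb1, hab⟩ := hb
  rw [List.mem_filter] at hb1
  obtain ⟨hbL, _⟩ := hb1
  obtain ⟨haL, _⟩ := ha
  simp only [Bool.and_eq_true, beq_iff_eq] at h4 hbc hac hab
  obtain ⟨hd, had, hbd, hcd⟩ := h4
  have hfin := hCLQ R6 [ME6b_ofV a, ME6b_ofV b, ME6b_ofV c,
    ME6b_ofV (ME6b_sub (ME6b_sub (ME6b_sub (ME6b_add (ME6b_toV y) (ME6b_toV y)) a) b) c)] (by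
      intro x hx
      have hx' : x ∈ R6 := by
        simp only [List.mem_cons, List.not_mem_nil, or_false] at hx
        rcases hx with rfl | rfl | rfl | rfl
        · exact ME6b_ofV_R6 (ME6b_isR_of_mem haL)
        · exact ME6b_ofV_R6 (ME6b_isR_of_mem hbL)
        · exact ME6b_ofV_R6 (ME6b_isR_of_mem hcL)
        · exact ME6b_ofV_R6 hd
      refine ⟨hx', ?_⟩
      have := hx'.2.2.2
      rw [this]
      norm_num) (by
      simp only [List.pairwise_cons, List.mem_cons, List.not_mem_nil, or_false, forall_eq_or_imp,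
        forall_eq, ME6b_ofV_dp]
      exact ⟨⟨hab, hac, had⟩, ⟨hbc, hbd⟩, hcd, by simp, List.Pairwise.nil⟩)
  have hsum : [ME6b_ofV a, ME6b_ofV b, ME6b_ofV c,
    ME6b_ofV (ME6b_sub (ME6b_sub (ME6b_sub (ME6b_add (ME6b_toV y) (ME6b_toV y)) a) b) c)].sum =
      y + y := by
    have e1 := ME6b_add_sub a b c (ME6b_add (ME6b_toV y) (ME6b_toV y))
    have e2 : ME6b_ofV (ME6b_add (ME6b_toV y) (ME6b_toV y)) = y + y := by
      rw [ME6b_ofV_add, ME6b_ofV_toV (ME6b_lin_R6 hy)]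
    rw [← e2]
    conv_rhs => rw [← e1, ME6b_ofV_add, ME6b_ofV_add, ME6b_ofV_add]
    simp only [List.sum_cons, List.sum_nil, add_zero, add_assoc]
  rw [hsum] at hfin
  exact hfin

theorem ME6b_half {x : Vec 8} (hx : ME6b_lin x) (h : ME6b_good (ME6b_toV x) = true) :
    ∃ y ∈ R6, x = y + y := by
  unfold ME6b_good at h
  simp only [Bool.and_eq_true, beq_iff_eq] at h
  obtain ⟨h1, h2, h3, h4, h5, h6, h7⟩ := h
  refine ⟨_, ME6b_ofV_R6 h7, ?_⟩
  rw [← ME6b_ofV_add]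
  conv_lhs => rw [← ME6b_ofV_toV hx]
  congr 1
  simp only [ME6b_toV] at h1 h2 h3 h4 h5 h6
  simp only [ME6b_toV, ME6b_add, ME6b_V.mk.injEq]
  refine ⟨?_, ?_, ?_, ?_, ?_, ?_⟩ <;> omega

theorem ME6b (hREP : REP_stmt) (hCTE : CTE_stmt) (hPRD : PRD_stmt) (hCLQ : CLQ_stmt) : ME6b_stmt := by
  refine ⟨fun x => ⟨?_, ?_⟩, ?_⟩
  · rintro ⟨S, hS, hR, hO, rfl⟩
    have h := ME6b_sound ME6b_good 4 ME6b_L ⟨0, 0, 0, 0, 0, 0⟩ ME6b_c4 S hS hR hO
      (fun x hx => ME6b_memL (ME6b_toV_isR (hR x hx)))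
    rw [ME6b_zero_add] at h
    exact ME6b_half (ME6b_lin_sum S fun x hx => ME6b_lin_R6 (hR x hx)) h
  · rintro ⟨y, hy, rfl⟩
    exact ME6b_back hCLQ hy
  · intro k hk
    rw [Set.eq_empty_iff_forall_notMem]
    rintro x ⟨S, hS, hR, hO, -⟩
    obtain ⟨T, hTS, hT⟩ := exists_subset_card_eq (s := S) (n := 5) (by omega)
    have h := ME6b_sound (fun _ => false) 5 ME6b_L ⟨0, 0, 0, 0, 0, 0⟩ ME6b_c5 T hT
      (fun x hx => hR x (hTS hx)) (fun x hx y hy => hO x (hTS hx) y (hTS hy))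
      (fun x hx => ME6b_memL (ME6b_toV_isR (hR x (hTS hx))))
    simp at h

end Pool.Agent.SOL
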